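import Mathlib

set_option autoImplicit false
set_option maxSynthPendingDepth 3

namespace Pool.Agent.Results.MP_bdb63f_co.No

open SimpleGraph

variable {V : Type}

def TwoConnected [Fintype V] (G : SimpleGraph V) : Prop :=
  3 ≤ Fintype.card V ∧ G.Connected ∧ ∀ w, (G.induce {w}ᶜ).Connected

def EdgeConnected (L : ℕ) (G : SimpleGraph V) : Prop :=
  ∀ F : Finset (Sym2 V), F.card < L → (G.deleteEdges F).Connected

def HasTriple (G : SimpleGraph V) (s t : V) : Prop :=
  ∃ (o : LinearOrder V) (I O : SimpleGraph V), I ≤ G ∧ O ≤ G ∧ I.IsTree ∧ O.IsTree ∧ Disjoint I O ∧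
    (∀ v ≠ t, ∃ w, I.Adj v w ∧ o.lt v w) ∧ ∀ v ≠ s, ∃ w, O.Adj v w ∧ o.lt w v

lemma clique {G : SimpleGraph V} {S : Finset V} (hS : G.IsClique S) {F : Finset (Sym2 V)}
    (h : F.card + 1 < S.card) {x y : V} (hx : x ∈ S) (hy : y ∈ S) :
    (G.deleteEdges F).Reachable x y := by
  classical
  by_contra hc
  have hxy : x ≠ y := fun e => hc (e ▸ Reachable.refl x)
  have h1 : ∀ z ∈ S.erase x, ∃ e ∈ F, e = s(x, z) ∨ e = s(z, y) := by
    intro z hz
    by_contra! h2
    have h3 : (G.deleteEdges F).Adj x z := deleteEdges_adj.2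
      ⟨hS hx (Finset.mem_of_mem_erase hz) (Finset.ne_of_mem_erase hz).symm, fun h => (h2 _ h).1 rfl⟩
    by_cases h4 : z = y
    · exact hc (h4 ▸ h3.reachable)
    · exact hc (h3.reachable.trans (Adj.reachable (deleteEdges_adj.2
        ⟨hS (Finset.mem_of_mem_erase hz) hy h4, fun h => (h2 _ h).2 rfl⟩)))
  have : Nonempty (Sym2 V) := ⟨s(x, x)⟩
  choose! f h2 h3 using h1
  have := Finset.card_le_card_of_injOn f h2 fun z hz z' hz' e => by
    have h4 := h3 z hz
    have h5 := h3 z' hz'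
    have h6 := Finset.ne_of_mem_erase hz
    have h7 := Finset.ne_of_mem_erase hz'
    rw [e] at h4
    rcases h4 with h4 | h4 <;> rcases h5 with h5 | h5 <;> rw [h4, Sym2.eq_iff] at h5 <;> grind
  rw [Finset.card_erase_of_mem hx] at this
  omega

abbrev W (L : ℕ) := Option (Fin 3) × Bool × Fin (L + 1)

def r {L : ℕ} (x y : W L) : Prop := (x.1 = none ∧ y.1 = none) ∨ (x.1 = y.1 ∧ x.2.1 = y.2.1) ∨
  (x.2.1 = y.2.1 ∧ x.1 = none ∧ x.2.2 = 0) ∨ (x.1 = y.1 ∧ x.2.2 = 0 ∧ y.2.2 = 0)

/-- for every `L` a simple, 2-connected, `L`-edge-connected graph without `(s,t)`-triple. -/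
theorem result (L : ℕ) : ∃ (V : Type) (_ : Fintype V) (G : SimpleGraph V),
    TwoConnected G ∧ EdgeConnected L G ∧ ∀ s t, ¬ HasTriple G s t := by
  classical
  have hE : EdgeConnected (L + 1) (fromRel (r (L := L))) := by
    intro F hF
    have h1 : ∀ x : W L, ((fromRel r).deleteEdges F).Reachable x (none, x.2.1, 0) := by
      rintro ⟨g, b, j⟩
      by_cases hg : g = none
      · refine clique (S := {none} ×ˢ Finset.univ) (fun x hx y hy h =>
          (fromRel_adj _ _ _).2 ⟨h, Or.inl (Or.inl ?_)⟩)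
          (by simp; omega) (by simp [hg]) (by simp)
        simp at hx hy
        grind
      · refine clique (S := insert (none, b, 0) ({g} ×ˢ {b} ×ˢ Finset.univ))
          (fun x hx y hy h => (fromRel_adj _ _ _).2 ⟨h, ?_⟩)
          (by rw [Finset.card_insert_of_notMem (by simpa using hg)]; simp; omega) (by simp) (by simp)
        simp only [Finset.coe_insert, Set.mem_insert_iff, Finset.mem_coe, Finset.mem_product,
          Finset.mem_singleton] at hx hy
        unfold r
        grind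
    have h2 : ∀ b, ((fromRel r).deleteEdges F).Reachable (none, b, 0) ((none, true, 0) : W L) :=
      fun b => by
        refine clique (S := {none} ×ˢ Finset.univ) (fun x hx y hy h =>
          (fromRel_adj _ _ _).2 ⟨h, Or.inl (Or.inl ?_)⟩)
          (by simp; omega) (by simp) (by simp)
        simp at hx hy
        grind
    exact ⟨fun x y => ((h1 x).trans (h2 _)).trans ((h1 y).trans (h2 _)).symm⟩
  refine ⟨W L, inferInstance, fromRel r, ⟨by simp; omega, by simpa using hE ∅ (by simp),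
    fun w => ?_⟩, fun F hF => hE F (by omega), fun s t ⟨o, I, O, hI, hO, _, _, hd, h1, h2⟩ => ?_⟩
  · have st : ∀ x y : ({w}ᶜ : Set (W L)), r x.1 y.1 ∨ r y.1 x.1 →
        ((fromRel r).induce {w}ᶜ).Reachable x y := fun x y h => by
      by_cases e : x = y
      · exact e ▸ Reachable.refl x
      · exact Adj.reachable ⟨fun e' => e (Subtype.ext e'), h⟩
    let p : ({w}ᶜ : Set (W L)) := ⟨(none, !w.2.1, 0), fun h => by simpa using congrArg (·.2.1) h⟩
    have : Nonempty ({w}ᶜ : Set (W L)) := ⟨p⟩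
    have h : ∀ x, ((fromRel r).induce {w}ᶜ).Reachable x p := by
      intro x
      by_cases h1 : w = (none, x.1.2.1, 0)
      · by_cases h2 : x.1.1 = none
        · exact st _ _ (Or.inl (Or.inl ⟨h2, rfl⟩))
        · refine (st x ⟨(x.1.1, x.1.2.1, 0), fun h => h2 (congrArg (·.1) (h.trans h1))⟩
            (by simp [r])).trans ((st _ ⟨(x.1.1, !w.2.1, 0), fun h => by
              simpa using congrArg (·.2.1) h⟩ (by simp [r])).trans (st _ _ (by simp [r, p])))
      · exact (st x ⟨_, Ne.symm h1⟩ (by simp [r])).trans (st _ _ (by simp [r, p]))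
    exact ⟨fun x y => (h x).trans (h y).symm⟩
  · obtain ⟨g, g1, g2⟩ := (by decide : ∀ a b : Option (Fin 3), ∃ g : Fin 3, a ≠ some g ∧ b ≠ some g)
      s.1 t.1
    have key : ∀ b : Bool, (I.Adj (g, b, 0) (g, !b, 0) ∧ o.lt (g, b, 0) (g, !b, 0)) ∨
        (O.Adj (g, b, 0) (g, !b, 0) ∧ o.lt (g, !b, 0) (g, b, 0)) := by
      intro b
      obtain ⟨j, hj⟩ := @Finite.exists_max _ _ _ _ o fun j : Fin (L + 1) => ((g, b, j) : W L)
      obtain ⟨k, hk⟩ := @Finite.exists_min _ _ _ _ o fun j : Fin (L + 1) => ((g, b, j) : W L)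
      obtain ⟨x, x1, x2⟩ := h1 (g, b, j) fun e => g2 (congrArg (·.1) e).symm
      obtain ⟨y, y1, y2⟩ := h2 (g, b, k) fun e => g1 (congrArg (·.1) e).symm
      have nb : ∀ (j : Fin (L + 1)) (x : W L), (fromRel r).Adj (g, b, j) x → x = (some g, b, x.2.2) ∨
          x = (none, b, 0) ∨ (j = 0 ∧ x = (some g, !b, 0)) := by
        rintro j ⟨z1, z2, z3⟩ ⟨-, h⟩
        unfold r at h
        cases b <;> cases z2 <;> simp at h ⊢ <;> grind
      rcases nb _ _ (hI x1) with h | h | ⟨rfl, rfl⟩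
      · exact absurd (h ▸ hj x.2.2) (@not_le_of_gt _ o.toPreorder _ _ x2)
      · rcases nb _ _ (hO y1) with h' | h' | ⟨rfl, rfl⟩
        · exact absurd (h' ▸ hk y.2.2) (@not_le_of_gt _ o.toPreorder _ _ y2)
        · exact absurd (hk j) (@not_le_of_gt _ o.toPreorder _ _
            (@lt_trans _ o.toPreorder _ _ _ x2 (h.trans h'.symm ▸ y2)))
        · exact Or.inr ⟨y1, y2⟩
      · exact Or.inl ⟨x1, x2⟩
    have h3 := fun a b (h : I.Adj a b) (h' : O.Adj a b) => (disjoint_iff.1 hd).le ⟨h, h'⟩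
    rcases key true with h | h <;> rcases key false with h' | h'
    exacts [@lt_asymm _ o.toPreorder _ _ h.2 h'.2, h3 _ _ h.1 h'.1.symm, h3 _ _ h'.1 h.1.symm,
      @lt_asymm _ o.toPreorder _ _ h.2 h'.2]

end Pool.Agent.Results.MP_bdb63f_co.No
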